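import Pool.Agent.PBP.LCont2

/-!
Polluted bootstrap percolation on `ℤ^d` with threshold `r ≥ 1` (in particular `d ≥ 3`, `r = 2`):
`φ⁺` is left continuous, so that continuity at `q_c` is equivalent to `φ⁺(q_c) = 0`.
-/

open Filter Topology

namespace Pool.Agent.Results.MP_c3c6c8_pr.LeftContinuity

open Pool.Agent.PBP

/-- For all `d` and `r ≥ 1`: `φ⁺` is left continuous at every `q`, and it is continuous at the
critical value `q_c` if and only if `φ⁺(q_c) = 0`. -/
theorem result (r d : ℕ) (hr : 1 ≤ r) :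
    (∀ q : ℝ, ContinuousWithinAt (phiPlus r d) (Set.Iic q) q) ∧
    (ContinuousAt (phiPlus r d) (qc r d) ↔ phiPlus r d (qc r d) = 0) :=
  ⟨phiPlus_left_cont hr d, cont_iff hr d⟩

end Pool.Agent.Results.MP_c3c6c8_pr.LeftContinuity
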