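import Pool.Agent.PBP.Main

/-!
Polluted bootstrap percolation on `ℤ^d` with threshold `r` (all `d` and `r`, in particular
`d ≥ 3` and `r = 2`): sharpness of the transition at `q_c`.
-/

open Filter Topology

namespace Pool.Agent.Results.MP_c3c6c8_pr.Sharpness

open Pool.Agent.PBP

/-- For all `r` and `d`: the limit `φ⁺(q)` of `φ(p, q)` as `p → 0+` exists; the ratio
`(1 - φ⁺(q)) / q` is nondecreasing in `q` below `q_c`; `φ⁺(q) ≥ 1 - q / q_c` below `q_c`; and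
above `q_c` the response to the initially occupied sites is linear: `φ(p, q) ≤ C_q p`. -/
theorem result (r d : ℕ) :
    (∀ q : ℝ, Tendsto (fun p => phi r d p q) (𝓝[>] 0) (𝓝 (phiPlus r d q))) ∧
    (∀ q1 q2 : ℝ, 0 < q1 → q1 ≤ q2 → q2 < qc r d →
      (1 - phiPlus r d q1) / q1 ≤ (1 - phiPlus r d q2) / q2) ∧
    (∀ q : ℝ, 0 ≤ q → q < qc r d → 1 - q / qc r d ≤ phiPlus r d q) ∧
    (∀ q : ℝ, qc r d < q → q ≤ 1 → ∃ C : ℝ, ∀ p : ℝ, 0 ≤ p → p + q ≤ 1 →
      phi r d p q ≤ C * p) :=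
  ⟨phiPlus_tendsto r d, fun _ _ => ratio_mono r d, fun _ => linear_lower r d,
    fun _ => linear_response r d⟩

end Pool.Agent.Results.MP_c3c6c8_pr.Sharpness
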