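import Pool.Agent.PBP.AG4

/-!
Polluted bootstrap percolation on `ℤ^d` with threshold `r ≥ 2`: comparison with Bernoulli site
percolation on the thin sublattice `{0, 1}^{r-1} × ℤ^{d-r+1}` (for `r = 2` this is the slab
`{0, 1} × ℤ^{d-1}`), and strict inequality between `q_c` and `1 - p_c^site(ℤ^d)` in all
dimensions `d ≥ 2`.
-/

namespace Pool.Agent.Results.MP_c3c6c8_pr.StrictBound

open Pool.Agent Pool.Agent.PBP

/-- For `r ≥ 2` and `d ≥ 2`: `φ⁺(q)` is at most the probability that the origin is in an infinite
open cluster of Bernoulli site percolation of density `1 - q` on `slab r d`; `q_c` is at most one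
minus the critical density of site percolation on `slab r d`; this critical density is strictly
larger than that of site percolation on `ℤ^d`. -/
theorem result (r d : ℕ) (hr : 2 ≤ r) (hd : 2 ≤ d) :
    (∀ q : ℝ, 0 ≤ q → q ≤ 1 → phiPlus r d q ≤ perc (slab r d) (1 - q)) ∧
    qc r d ≤ 1 - pcSite (slab r d) ∧
    (Perc.pc d : ℝ) < pcSite (slab r d) ∧
    qc r d < 1 - (Perc.pc d : ℝ) :=
  ⟨fun _ => phiPlus_le_perc (by omega), qc_le_slab (by omega), pc_lt_slab hr hd,
    (qc_le_slab (by omega)).trans_lt (by have := pc_lt_slab hr hd; linarith)⟩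

end Pool.Agent.Results.MP_c3c6c8_pr.StrictBound
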